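import Pool.Agent.H62.RCQ.Basic

/-!
# Project RCQ, module COA
-/

set_option autoImplicit false

namespace Pool.Agent.H62.RCQ.COA

open Pool.Agent.H39.RC Pool.Agent.H6.RCQ Pool.Agent.H62.RCQ
open Classical

theorem coa (hDOM : DOMStmt) : COAStmt := by
  intro V G O M hG hM g hg h5 m hm hmg
  by_contra hcon
  have hS : ∀ s, s ∈ M.filter (fun v => G.Adj g v) ↔ s ∈ M ∧ G.Adj g s := by
    intro s
    rw [Finset.mem_filter]
  have hPol : Pol G O {g} (M.filter (fun v => G.Adj g v)) := by
    refine ⟨hM.con, con_single g, Set.disjoint_singleton_right.2 hg, ?_, ?_, ?_, ?_⟩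
    · intro s hs
      exact hM.out s ((hS s).1 hs).1
    · intro s hs e
      exact ((hS s).1 hs).2.ne (Set.mem_singleton_iff.1 e).symm
    · intro s hs
      exact hM.adj s ((hS s).1 hs).1
    · intro s hs
      exact ⟨g, rfl, ((hS s).1 hs).2⟩
  refine hDOM V G O {g} _ hG hPol h5 m ?_ ?_
  · rintro ((h | h) | h)
    · exact hM.out m hm h
    · exact hmg h
    · exact hcon ((hS m).1 h).2
  · intro s hs
    obtain ⟨hsM, hgs⟩ := (hS s).1 hs
    have hne : m ≠ s := by
      rintro rfl
      exact hcon hgs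
    rcases hM.lk m hm s hsM hne with h | ⟨x, hx, h1, h2⟩
    · exact Or.inl h
    · refine Or.inr ⟨x, ?_, h1, h2⟩
      rintro (h | h)
      · exact hx h
      · rw [Set.mem_singleton_iff] at h
        rw [h] at h1
        exact hcon h1.symm

end Pool.Agent.H62.RCQ.COA
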