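import Pool.Agent.H62.RCQ.Basic

/-!
# Project RCQ, module PE1: a component is attached to at most two common neighbours
-/

set_option autoImplicit false

namespace Pool.Agent.H62.RCQ.PE1

open Pool.Agent.H39.RC Pool.Agent.H6.RCQ Pool.Agent.H62.RCQ

theorem pe1 : PE1Stmt := by
  intro V G P Q S hG hP v s1 s2 s3 m1 m2 m3 n12 n13 n23 l1 l2 l3
  obtain ⟨Z, -, kZ, xZ, e1, e2, e3⟩ := lnk3 l1 l2 l3
  have dPZ : Disjoint P Z := Set.disjoint_left.2 (fun z hz hz' => xZ z hz' (Or.inl (Or.inl hz)))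
  have dQZ : Disjoint Q Z := Set.disjoint_left.2 (fun z hz hz' => xZ z hz' (Or.inl (Or.inr hz)))
  have dZ : ∀ s ∈ S, s ∉ Z := fun s hs hz => xZ s hz (Or.inr hs)
  exact k33pts hG hP.cP hP.cQ kZ hP.dis dPZ dQZ n12 n13 n23 (hP.oP _ m1) (hP.oP _ m2)
    (hP.oP _ m3) (hP.oQ _ m1) (hP.oQ _ m2) (hP.oQ _ m3) (dZ _ m1) (dZ _ m2) (dZ _ m3)
    (hP.aP _ m1) (hP.aP _ m2) (hP.aP _ m3) (hP.aQ _ m1) (hP.aQ _ m2) (hP.aQ _ m3) e1 e2 e3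

end Pool.Agent.H62.RCQ.PE1
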