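import Pool.Agent.H62.RCQ.Basic

/-!
# Project RCQ, module R4L: an outside vertex linked to all of four common neighbours
-/

set_option autoImplicit false

namespace Pool.Agent.H62.RCQ.R4L

open Pool.Agent.H39.RC Pool.Agent.H6.RCQ Pool.Agent.H62.RCQ
open Classical

theorem r4l (hPE1 : PE1Stmt) : R4LStmt := by
  intro V G P Q S hG hP hcard r hr hR
  -- attached elements
  obtain ⟨S0, hS0⟩ : ∃ S0, S0 = S.filter (fun s => Lnk G (XX P Q S) r s) := ⟨_, rfl⟩
  have hmem : ∀ s, s ∈ S0 ↔ s ∈ S ∧ Lnk G (XX P Q S) r s := by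
    intro s
    rw [hS0, Finset.mem_filter]
  have hsub : S0 ⊆ S := fun s hs => ((hmem s).1 hs).1
  have h2 : S0.card ≤ 2 := by
    by_contra hcon
    obtain ⟨c1, m1, c2, m2, c3, m3, n12, n13, n23⟩ := Finset.two_lt_card.mp (not_le.mp hcon)
    rw [hmem] at m1 m2 m3
    exact hPE1 V G P Q S hG hP r c1 c2 c3 m1.1 m2.1 m3.1 n12 n13 n23 m1.2 m2.2 m3.2
  have hmid : ∀ s ∈ S, s ∉ S0 → ∃ h ∈ S0, G.Adj r h ∧ G.Adj h s := by
    intro s hs hs0
    rcases hR s hs with h | ⟨x, hx, h1, h2⟩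
    · exact absurd ((hmem s).2 ⟨hs, lnk_adj hr h⟩) hs0
    · by_cases hxX : x ∈ XX P Q S
      · rcases hxX with hx' | hx'
        · exact absurd hx' hx
        · exact ⟨x, (hmem x).2 ⟨hx', lnk_adj hr h1⟩, h1, h2⟩
      · exact absurd ((hmem s).2 ⟨hs, lnk_cons hr h1 (lnk_adj hxX h2)⟩) hs0
  -- no vertex of S with r next to it has two further neighbours in S plus a third attached one
  have hsd : (S \ S0).card + S0.card = 4 := by
    rw [Finset.card_sdiff_add_card_eq_card hsub, hcard]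
  have hne : ∃ s, s ∈ S ∧ s ∉ S0 := by
    by_contra hcon
    push Not at hcon
    have := Finset.card_le_card (fun s hs => hcon s hs : S ⊆ S0)
    omega
  have key3 : ∀ h ∈ S, ∀ s1 s2 s3, s1 ∈ S → s2 ∈ S → s3 ∈ S → s1 ≠ s2 → s1 ≠ s3 → s2 ≠ s3 →
      G.Adj h s1 → G.Adj h s2 → G.Adj h s3 → False := by
    intro h hh s1 s2 s3 m1 m2 m3 n12 n13 n23 e1 e2 e3
    refine k33pts hG hP.cP hP.cQ (con_single h) hP.dis
      (Set.disjoint_singleton_right.2 (hP.oP h hh)) (Set.disjoint_singleton_right.2 (hP.oQ h hh))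
      n12 n13 n23 (hP.oP _ m1) (hP.oP _ m2)
      (hP.oP _ m3) (hP.oQ _ m1) (hP.oQ _ m2) (hP.oQ _ m3) ?_ ?_ ?_
      (hP.aP _ m1) (hP.aP _ m2) (hP.aP _ m3) (hP.aQ _ m1) (hP.aQ _ m2) (hP.aQ _ m3)
      ⟨h, rfl, e1⟩ ⟨h, rfl, e2⟩ ⟨h, rfl, e3⟩
    · exact fun e => e1.ne (Set.mem_singleton_iff.1 e).symm
    · exact fun e => e2.ne (Set.mem_singleton_iff.1 e).symm
    · exact fun e => e3.ne (Set.mem_singleton_iff.1 e).symm
  have key2 : ∀ h ∈ S, G.Adj r h → ∀ h', h' ∈ S0 → h' ≠ h → ∀ s1 s2, s1 ∈ S → s2 ∈ S →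
      s1 ≠ s2 → s1 ≠ h' → s2 ≠ h' → G.Adj h s1 → G.Adj h s2 → False := by
    intro h hh hrh h' hh' hne s1 s2 m1 m2 n12 n1 n2 e1 e2
    obtain ⟨m3, Z, rZ, kZ, xZ, z, hz, e3⟩ := (hmem h').1 hh'
    have kZ' : Con G (insert h Z) := kZ.insert rZ hrh
    refine k33pts hG hP.cP hP.cQ kZ' hP.dis ?_ ?_
      n12 n1 n2 (hP.oP _ m1) (hP.oP _ m2)
      (hP.oP _ m3) (hP.oQ _ m1) (hP.oQ _ m2) (hP.oQ _ m3) ?_ ?_ ?_
      (hP.aP _ m1) (hP.aP _ m2) (hP.aP _ m3) (hP.aQ _ m1) (hP.aQ _ m2) (hP.aQ _ m3)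
      ⟨h, Set.mem_insert _ _, e1⟩ ⟨h, Set.mem_insert _ _, e2⟩
      ⟨z, Set.mem_insert_of_mem _ hz, e3⟩
    · refine Set.disjoint_left.2 (fun y hy hy' => ?_)
      rcases Set.mem_insert_iff.1 hy' with rfl | hy'
      · exact hP.oP _ hh hy
      · exact xZ y hy' (Or.inl (Or.inl hy))
    · refine Set.disjoint_left.2 (fun y hy hy' => ?_)
      rcases Set.mem_insert_iff.1 hy' with rfl | hy'
      · exact hP.oQ _ hh hy
      · exact xZ y hy' (Or.inl (Or.inr hy))
    · intro hy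
      rcases Set.mem_insert_iff.1 hy with e | hy'
      · exact e1.ne e.symm
      · exact xZ _ hy' (Or.inr m1)
    · intro hy
      rcases Set.mem_insert_iff.1 hy with e | hy'
      · exact e2.ne e.symm
      · exact xZ _ hy' (Or.inr m2)
    · intro hy
      rcases Set.mem_insert_iff.1 hy with e | hy'
      · exact hne e
      · exact xZ _ hy' (Or.inr m3)
  -- the cardinality of S0 is 2
  have hS02 : S0.card = 2 := by
    obtain ⟨s, hs, hs0⟩ := hne
    obtain ⟨h, hh0, hrh, hhs⟩ := hmid s hs hs0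
    by_contra hcon
    have h1 : S0.card = 1 := by
      have : 0 < S0.card := Finset.card_pos.2 ⟨h, hh0⟩
      omega
    obtain ⟨h', hS1⟩ := Finset.card_eq_one.1 h1
    have hall : ∀ t ∈ S \ S0, G.Adj h' t := by
      intro t ht
      rw [Finset.mem_sdiff] at ht
      obtain ⟨k, hk, -, hkt⟩ := hmid t ht.1 ht.2
      rw [hS1, Finset.mem_singleton] at hk
      rwa [hk] at hkt
    have h3 : 2 < (S \ S0).card := by omega
    obtain ⟨c1, m1, c2, m2, c3, m3, n12, n13, n23⟩ := Finset.two_lt_card.mp h3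
    have hh' : h' ∈ S := hsub (by rw [hS1]; exact Finset.mem_singleton_self _)
    exact key3 h' hh' c1 c2 c3 (Finset.mem_sdiff.1 m1).1 (Finset.mem_sdiff.1 m2).1
      (Finset.mem_sdiff.1 m3).1 n12 n13 n23 (hall _ m1) (hall _ m2) (hall _ m3)
  have hS2 : (S \ S0).card = 2 := by omega
  obtain ⟨a, d, nad, hSd⟩ := Finset.card_eq_two.1 hS2
  have ha := Finset.mem_sdiff.1 (by rw [hSd]; simp : a ∈ S \ S0)
  have hd := Finset.mem_sdiff.1 (by rw [hSd]; simp : d ∈ S \ S0)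
  obtain ⟨b, hb0, hrb, hba⟩ := hmid a ha.1 ha.2
  obtain ⟨c, hc0, hrc, hcd⟩ := hmid d hd.1 hd.2
  have nne : ∀ {s t : V}, s ∉ S0 → t ∈ S0 → s ≠ t := by
    rintro s t hs ht rfl
    exact hs ht
  have hbc : b ≠ c := by
    rintro rfl
    -- another element of S0
    obtain ⟨h', hh', hn'⟩ : ∃ h' ∈ S0, h' ≠ b := by
      by_contra hcon
      push Not at hcon
      have : S0 ⊆ {b} := fun s hs => Finset.mem_singleton.2 (hcon s hs)
      have := Finset.card_le_card this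
      rw [Finset.card_singleton] at this
      omega
    exact key2 b (hsub hb0) hrb h' hh' hn' a d ha.1 hd.1 nad (nne ha.2 hh') (nne hd.2 hh') hba hcd
  refine ⟨a, b, c, d, ?_, nne ha.2 hb0, nne ha.2 hc0, nad, hbc, (nne hd.2 hb0).symm,
    (nne hd.2 hc0).symm, hba.symm, hrb, hrc, hcd, ?_, ?_, ?_⟩
  · have hS0e : S0 = {b, c} := by
      symm
      apply Finset.eq_of_subset_of_card_le
      · intro s hs
        rcases Finset.mem_insert.1 hs with rfl | hs
        · exact hb0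
        · rw [Finset.mem_singleton] at hs
          rw [hs]
          exact hc0
      · rw [Finset.card_pair hbc, hS02]
    ext s
    constructor
    · intro hs
      by_cases h0 : s ∈ S0
      · rw [hS0e] at h0
        simp only [Finset.mem_insert, Finset.mem_singleton] at h0 ⊢
        tauto
      · have : s ∈ S \ S0 := Finset.mem_sdiff.2 ⟨hs, h0⟩
        rw [hSd] at this
        simp only [Finset.mem_insert, Finset.mem_singleton] at this ⊢
        tauto
    · intro hs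
      simp only [Finset.mem_insert, Finset.mem_singleton] at hs
      rcases hs with rfl | rfl | rfl | rfl
      · exact ha.1
      · exact hsub hb0
      · exact hsub hc0
      · exact hd.1
  · exact ⟨hsub hb0, hsub hc0, hbc, Or.inr ⟨r, ((hmem b).1 hb0).2, ((hmem c).1 hc0).2⟩⟩
  · exact fun h => ha.2 ((hmem a).2 ⟨ha.1, h⟩)
  · exact fun h => hd.2 ((hmem d).2 ⟨hd.1, h⟩)

end Pool.Agent.H62.RCQ.R4L
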