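import Pool.Agent.H62.RCQ.Basic

/-!
# Project RCQ, module STAR: the star case
-/

set_option autoImplicit false

namespace Pool.Agent.H62.RCQ.STAR

open Pool.Agent.H39.RC Pool.Agent.H6.RCQ Pool.Agent.H62.RCQ
open Classical

/-- classes of neighbours with one label have at most `3 p + 1` elements -/
theorem class_le (hCOM : COMStmt) {V : Type} {G : SimpleGraph V} {p : ℕ} {lab : V → V → Fin p}
    {R : Finset V} (hp : 2 ≤ p) (hC : Cfg p G lab R) (x : V) (l : Fin p) :
    ((D G R x).filter (fun v => lab x v = l)).card ≤ 3 * p + 1 := by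
  have hm : ∀ m, m ∈ (D G R x).filter (fun v => lab x v = l) ↔
      (m ∈ R ∧ G.Adj x m) ∧ lab x m = l := by
    intro m
    unfold D
    rw [Finset.mem_filter, Finset.mem_filter]
  refine (hCOM V G p lab {x} _ hp hC.pg (con_single x) ?_ ?_ ?_).1
  · intro m h e
    rw [hm] at h
    exact h.1.2.ne (Set.mem_singleton_iff.1 e).symm
  · intro m h
    rw [hm] at h
    exact ⟨x, rfl, h.1.2⟩
  · intro m h m' h' hne
    rw [hm] at h h'
    rcases hC.lk m h.1.1 m' h'.1.1 hne with h3 | ⟨w, -, h4, h5, h6⟩
    · exact Or.inl h3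
    · refine Or.inr ⟨w, ?_, h4, h5, h6⟩
      intro e
      rw [Set.mem_singleton_iff] at e
      rw [e, h.2, h'.2] at h6
      exact h6 rfl

theorem star (hCOM : COMStmt) : STARStmt := by
  intro V G p lab R x hp hC hcard
  by_contra hcon
  have hall : ∀ v ∈ R, v = x ∨ G.Adj x v := by
    intro v hv
    by_contra h
    push Not at h
    apply hcon
    refine ⟨v, ?_⟩
    unfold U
    rw [Finset.mem_filter]
    exact ⟨hv, h⟩
  have hsub : R ⊆ insert x (D G R x) := by
    intro v hv
    rcases hall v hv with h | h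
    · rw [h]
      exact Finset.mem_insert_self _ _
    · refine Finset.mem_insert_of_mem ?_
      unfold D
      exact Finset.mem_filter.2 ⟨hv, h⟩
  have h1 := (Finset.card_le_card hsub).trans (Finset.card_insert_le _ _)
  have h2 : (D G R x).card = ∑ l : Fin p, ((D G R x).filter (fun v => lab x v = l)).card :=
    Finset.card_eq_sum_card_fiberwise (fun v _ => Finset.mem_coe.2 (Finset.mem_univ (lab x v)))
  have h3 : (D G R x).card ≤ p * (3 * p + 1) := by
    rw [h2]
    calc ∑ l : Fin p, ((D G R x).filter (fun v => lab x v = l)).card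
        ≤ ∑ _l : Fin p, (3 * p + 1) := Finset.sum_le_sum (fun l _ => class_le hCOM hp hC x l)
      _ = p * (3 * p + 1) := by simp
  have h4 : p * (3 * p + 1) = 3 * p ^ 2 + p := by ring
  omega

end Pool.Agent.H62.RCQ.STAR
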