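import Pool.Agent.H6.RCQ.Stmts1

/-!
# Project RCQ: small tools (K33 from six sets, K5 from five sets)
-/

set_option autoImplicit false

namespace Pool.Agent.H62.RCQ

open Pool.Agent.H39.RC Pool.Agent.H6.RCQ
open Classical

variable {V : Type} {G : SimpleGraph V}

/-- an edge between two sets -/
def Ed (G : SimpleGraph V) (A B : Set V) : Prop := ∃ x ∈ A, ∃ y ∈ B, G.Adj x y

theorem Ed.symm {A B : Set V} (h : Ed G A B) : Ed G B A := by
  obtain ⟨x, hx, y, hy, e⟩ := h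
  exact ⟨y, hy, x, hx, e.symm⟩

theorem k33six (h : PG G) {A1 A2 A3 B1 B2 B3 : Set V}
    (cA1 : Con G A1) (cA2 : Con G A2) (cA3 : Con G A3)
    (cB1 : Con G B1) (cB2 : Con G B2) (cB3 : Con G B3)
    (a12 : Disjoint A1 A2) (a13 : Disjoint A1 A3) (a23 : Disjoint A2 A3)
    (b12 : Disjoint B1 B2) (b13 : Disjoint B1 B3) (b23 : Disjoint B2 B3)
    (d11 : Disjoint A1 B1) (d12 : Disjoint A1 B2) (d13 : Disjoint A1 B3)
    (d21 : Disjoint A2 B1) (d22 : Disjoint A2 B2) (d23 : Disjoint A2 B3)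
    (d31 : Disjoint A3 B1) (d32 : Disjoint A3 B2) (d33 : Disjoint A3 B3)
    (e11 : Ed G A1 B1) (e12 : Ed G A1 B2) (e13 : Ed G A1 B3)
    (e21 : Ed G A2 B1) (e22 : Ed G A2 B2) (e23 : Ed G A2 B3)
    (e31 : Ed G A3 B1) (e32 : Ed G A3 B2) (e33 : Ed G A3 B3) : False := by
  apply h.k33
  refine hasMinor_k33 ![A1, A2, A3] ![B1, B2, B3] ?_ ?_ ?_ ?_ ?_ ?_
  · intro i
    fin_cases i
    · exact cA1
    · exact cA2
    · exact cA3
  · intro i
    fin_cases i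
    · exact cB1
    · exact cB2
    · exact cB3
  · intro i j hij
    fin_cases i <;> fin_cases j <;> simp at hij ⊢
    · exact a12
    · exact a13
    · exact a23
  · intro i j hij
    fin_cases i <;> fin_cases j <;> simp at hij ⊢
    · exact b12
    · exact b13
    · exact b23
  · intro i j
    fin_cases i <;> fin_cases j
    · exact d11
    · exact d12
    · exact d13
    · exact d21
    · exact d22
    · exact d23
    · exact d31
    · exact d32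
    · exact d33
  · intro i j
    fin_cases i <;> fin_cases j
    · exact e11
    · exact e12
    · exact e13
    · exact e21
    · exact e22
    · exact e23
    · exact e31
    · exact e32
    · exact e33

theorem k5five (h : PG G) {A1 A2 A3 A4 A5 : Set V}
    (c1 : Con G A1) (c2 : Con G A2) (c3 : Con G A3) (c4 : Con G A4) (c5 : Con G A5)
    (d12 : Disjoint A1 A2) (d13 : Disjoint A1 A3) (d14 : Disjoint A1 A4) (d15 : Disjoint A1 A5)
    (d23 : Disjoint A2 A3) (d24 : Disjoint A2 A4) (d25 : Disjoint A2 A5)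
    (d34 : Disjoint A3 A4) (d35 : Disjoint A3 A5) (d45 : Disjoint A4 A5)
    (e12 : Ed G A1 A2) (e13 : Ed G A1 A3) (e14 : Ed G A1 A4) (e15 : Ed G A1 A5)
    (e23 : Ed G A2 A3) (e24 : Ed G A2 A4) (e25 : Ed G A2 A5)
    (e34 : Ed G A3 A4) (e35 : Ed G A3 A5) (e45 : Ed G A4 A5) : False := by
  apply h.k5
  refine hasMinor_k5 ![A1, A2, A3, A4, A5] ?_ ?_ ?_
  · intro i
    fin_cases i
    · exact c1
    · exact c2
    · exact c3
    · exact c4
    · exact c5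
  · intro i j hij
    fin_cases i <;> fin_cases j <;> first | (exact absurd hij (by decide)) | skip
    · exact d12
    · exact d13
    · exact d14
    · exact d15
    · exact d23
    · exact d24
    · exact d25
    · exact d34
    · exact d35
    · exact d45
  · intro i j hij
    fin_cases i <;> fin_cases j <;> first | (exact absurd hij (by decide)) | skip
    · exact e12
    · exact e13
    · exact e14
    · exact e15
    · exact e23
    · exact e24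
    · exact e25
    · exact e34
    · exact e35
    · exact e45

/-- combine two links from the same vertex -/
theorem lnk2 {X : Set V} {v a b : V} (h1 : Lnk G X v a) (h2 : Lnk G X v b) :
    ∃ Z : Set V, v ∈ Z ∧ Con G Z ∧ (∀ z ∈ Z, z ∉ X) ∧ (∃ z ∈ Z, G.Adj z a) ∧
      ∃ z ∈ Z, G.Adj z b := by
  obtain ⟨Z1, v1, k1, x1, z1, m1, e1⟩ := h1
  obtain ⟨Z2, v2, k2, x2, z2, m2, e2⟩ := h2
  refine ⟨Z1 ∪ Z2, Or.inl v1, k1.union k2 v1 v2, ?_, ⟨z1, Or.inl m1, e1⟩, ⟨z2, Or.inr m2, e2⟩⟩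
  rintro z (hz | hz)
  · exact x1 z hz
  · exact x2 z hz

/-- combine three links from the same vertex -/
theorem lnk3 {X : Set V} {v a b c : V} (h1 : Lnk G X v a) (h2 : Lnk G X v b)
    (h3 : Lnk G X v c) :
    ∃ Z : Set V, v ∈ Z ∧ Con G Z ∧ (∀ z ∈ Z, z ∉ X) ∧ (∃ z ∈ Z, G.Adj z a) ∧
      (∃ z ∈ Z, G.Adj z b) ∧ ∃ z ∈ Z, G.Adj z c := by
  obtain ⟨Z1, v1, k1, x1, ⟨z1, m1, e1⟩, ⟨z2, m2, e2⟩⟩ := lnk2 h1 h2
  obtain ⟨Z3, v3, k3, x3, z3, m3, e3⟩ := h3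
  refine ⟨Z1 ∪ Z3, Or.inl v1, k1.union k3 v1 v3, ?_, ⟨z1, Or.inl m1, e1⟩, ⟨z2, Or.inl m2, e2⟩,
    ⟨z3, Or.inr m3, e3⟩⟩
  rintro z (hz | hz)
  · exact x1 z hz
  · exact x3 z hz

theorem lnk_notMem {X : Set V} {v a : V} (h : Lnk G X v a) : v ∉ X := by
  obtain ⟨Z, v1, -, x1, -⟩ := h
  exact x1 v v1

theorem lnk_mono {X Y : Set V} (hXY : Y ⊆ X) {v a : V} (h : Lnk G X v a) : Lnk G Y v a := by
  obtain ⟨Z, v1, k1, x1, z⟩ := h
  exact ⟨Z, v1, k1, fun y hy hY => x1 y hy (hXY hY), z⟩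

/-- three singletons opposite to three sets -/
theorem k33pts (h : PG G) {A1 A2 A3 : Set V} {s1 s2 s3 : V}
    (cA1 : Con G A1) (cA2 : Con G A2) (cA3 : Con G A3)
    (a12 : Disjoint A1 A2) (a13 : Disjoint A1 A3) (a23 : Disjoint A2 A3)
    (n12 : s1 ≠ s2) (n13 : s1 ≠ s3) (n23 : s2 ≠ s3)
    (d11 : s1 ∉ A1) (d12 : s2 ∉ A1) (d13 : s3 ∉ A1)
    (d21 : s1 ∉ A2) (d22 : s2 ∉ A2) (d23 : s3 ∉ A2)
    (d31 : s1 ∉ A3) (d32 : s2 ∉ A3) (d33 : s3 ∉ A3)
    (e11 : ∃ z ∈ A1, G.Adj z s1) (e12 : ∃ z ∈ A1, G.Adj z s2) (e13 : ∃ z ∈ A1, G.Adj z s3)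
    (e21 : ∃ z ∈ A2, G.Adj z s1) (e22 : ∃ z ∈ A2, G.Adj z s2) (e23 : ∃ z ∈ A2, G.Adj z s3)
    (e31 : ∃ z ∈ A3, G.Adj z s1) (e32 : ∃ z ∈ A3, G.Adj z s2) (e33 : ∃ z ∈ A3, G.Adj z s3) :
    False := by
  have ed : ∀ {A : Set V} {s : V}, (∃ z ∈ A, G.Adj z s) → Ed G A {s} := by
    rintro A s ⟨z, hz, e⟩
    exact ⟨z, hz, s, rfl, e⟩
  refine k33six h cA1 cA2 cA3 (con_single s1) (con_single s2) (con_single s3) a12 a13 a23
    ?_ ?_ ?_ ?_ ?_ ?_ ?_ ?_ ?_ ?_ ?_ ?_ (ed e11) (ed e12) (ed e13) (ed e21) (ed e22) (ed e23)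
    (ed e31) (ed e32) (ed e33) <;>
    first
    | exact Set.disjoint_singleton_right.2 (by assumption)
    | exact Set.disjoint_singleton.2 (by assumption)

end Pool.Agent.H62.RCQ
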