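import Pool.Agent.H62.RCQ.Basic
import Pool.Agent.H6.RCQ.Stmts3

/-!
# Project RCQ, module RM1: private neighbours are adjacent to one of the two middle vertices
-/

set_option autoImplicit false

namespace Pool.Agent.H62.RCQ.RM1

open Pool.Agent.H39.RC Pool.Agent.H6.RCQ Pool.Agent.H62.RCQ
open Classical

/-- the core, after choosing the element `u1` of `I` to which `b` is attached -/
theorem rm1_core (hPE1 : PE1Stmt) (hPE2 : PE2Stmt) {V : Type} {G : SimpleGraph V}
    (hG : PG G) {x c a2 a3 u1 u2 b e : V} {S : Finset V} (hS : S = {x, c, u1, u2})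
    (hP : Pol G {a2} {a3} S) (hxc : x ≠ c) (xu1 : x ≠ u1) (xu2 : x ≠ u2) (cu1 : c ≠ u1)
    (cu2 : c ≠ u2) (u12 : u1 ≠ u2) (hbX : b ∉ XX {a2} {a3} S) (heX : e ∉ XX {a2} {a3} S)
    (hxb : G.Adj x b) (hce : G.Adj c e) (hbu : G.Adj b u1) (huu : G.Adj u1 u2)
    (hcb : ¬ G.Adj c b) (hxe : ¬ G.Adj x e) (hb2 : ¬ G.Adj b a2) (hb3 : ¬ G.Adj b a3)
    (hbe : Rch G ∅ b e) : False := by
  have mx : x ∈ S := by rw [hS]; simp
  have mc : c ∈ S := by rw [hS]; simp
  have m1 : u1 ∈ S := by rw [hS]; simp
  have m2 : u2 ∈ S := by rw [hS]; simp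
  have lbx : Lnk G (XX {a2} {a3} S) b x := lnk_adj hbX hxb.symm
  have lbu : Lnk G (XX {a2} {a3} S) b u1 := lnk_adj hbX hbu
  have lec : Lnk G (XX {a2} {a3} S) e c := lnk_adj heX hce.symm
  rcases hbe with h | ⟨w, -, hbw, hwe⟩
  · exact hPE1 V G _ _ S hG hP b x u1 c mx m1 mc xu1 hxc cu1.symm lbx lbu
      (lnk_cons hbX h lec)
  · by_cases hw : w ∈ XX {a2} {a3} S
    · rcases hw with (hw | hw) | hw
      · rw [Set.mem_singleton_iff] at hw
        rw [hw] at hbw
        exact hb2 hbw
      · rw [Set.mem_singleton_iff] at hw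
        rw [hw] at hbw
        exact hb3 hbw
      · rw [Finset.mem_coe, hS] at hw
        simp only [Finset.mem_insert, Finset.mem_singleton] at hw
        rcases hw with hw | hw | hw | hw
        · rw [hw] at hwe
          exact hxe hwe
        · rw [hw] at hbw
          exact hcb hbw.symm
        · rw [hw] at hwe
          refine hPE2 V G _ _ S hG hP u1 x u2 c ⟨m1, mx, xu1.symm, Or.inr ⟨b, lbu, lbx⟩⟩
            ⟨m1, m2, u12, Or.inl huu⟩
            ⟨m1, mc, cu1.symm, Or.inr ⟨e, lnk_adj heX hwe.symm, lec⟩⟩ xu2 hxc cu2.symm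
        · rw [hw] at hbw
          exact hPE1 V G _ _ S hG hP b x u1 u2 mx m1 m2 xu1 xu2 u12 lbx lbu
            (lnk_adj hbX hbw)
    · exact hPE1 V G _ _ S hG hP b x u1 c mx m1 mc xu1 hxc cu1.symm lbx lbu
        (lnk_cons hbX hbw (lnk_cons hw hwe lec))

theorem rm1 (hPE1 : PE1Stmt) (hPE2 : PE2Stmt) : RM1Stmt := by
  intro V G R x c a1 a2 a3 a4 hL hxc hMid hI hE b hb
  by_contra hcon
  push Not at hcon
  obtain ⟨hb2, hb3⟩ := hcon
  obtain ⟨hCN, -, -, -, n23, -, -, -, -, hII⟩ := hMid
  obtain ⟨e, he⟩ := hE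
  have hma : ∀ a ∈ CN G R x c, G.Adj x a ∧ G.Adj c a := by
    intro a ha
    unfold CN at ha
    exact (Finset.mem_filter.1 ha).2
  have h2 := hma a2 (by rw [hCN]; simp)
  have h3 := hma a3 (by rw [hCN]; simp)
  have hmI : ∀ u ∈ II G R x c, u ∈ R ∧ u ≠ x ∧ u ≠ c ∧ ¬ G.Adj x u ∧ ¬ G.Adj c u := by
    intro u hu
    unfold II at hu
    exact Finset.mem_filter.1 hu
  unfold PB at hb he
  rw [Finset.mem_filter] at hb he
  obtain ⟨hbR, hxb, hcb, hbc⟩ := hb
  obtain ⟨heR, hce, hxe, hex⟩ := he
  obtain ⟨u1, hu1, u2, hu2, u12⟩ := Finset.one_lt_card.1 (lt_of_lt_of_le one_lt_two hI)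
  -- the general step
  have step : ∀ u1 ∈ II G R x c, ∀ u2 ∈ II G R x c, u1 ≠ u2 → G.Adj b u1 → G.Adj u1 u2 →
      False := by
    intro u1 hu1 u2 hu2 u12 hbu huu
    obtain ⟨hu1R, u1x, u1c, hxu1, hcu1⟩ := hmI u1 hu1
    obtain ⟨hu2R, u2x, u2c, hxu2, hcu2⟩ := hmI u2 hu2
    have q1 := hII u1 hu1
    have q2 := hII u2 hu2
    have hmS : ∀ s ∈ ({x, c, u1, u2} : Finset V), G.Adj s a2 ∧ G.Adj s a3 := by
      intro s hs
      simp only [Finset.mem_insert, Finset.mem_singleton] at hs
      rcases hs with rfl | rfl | rfl | rfl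
      · exact ⟨h2.1, h3.1⟩
      · exact ⟨h2.2, h3.2⟩
      · exact q1
      · exact q2
    have hP : Pol G {a2} {a3} ({x, c, u1, u2} : Finset V) := by
      refine ⟨con_single _, con_single _, Set.disjoint_singleton.2 n23, ?_, ?_, ?_, ?_⟩
      · intro s hs e
        exact (hmS s hs).1.ne (Set.mem_singleton_iff.1 e)
      · intro s hs e
        exact (hmS s hs).2.ne (Set.mem_singleton_iff.1 e)
      · intro s hs
        exact ⟨a2, rfl, (hmS s hs).1.symm⟩
      · intro s hs
        exact ⟨a3, rfl, (hmS s hs).2.symm⟩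
    have hbX : b ∉ XX {a2} {a3} ({x, c, u1, u2} : Finset V) := by
      rintro ((h | h) | h)
      · rw [Set.mem_singleton_iff] at h
        rw [h] at hcb
        exact hcb h2.2
      · rw [Set.mem_singleton_iff] at h
        rw [h] at hcb
        exact hcb h3.2
      · rw [Finset.mem_coe] at h
        simp only [Finset.mem_insert, Finset.mem_singleton] at h
        rcases h with h | h | h | h
        · exact hxb.ne h.symm
        · exact hbc h
        · rw [h] at hxb
          exact hxu1 hxb
        · rw [h] at hxb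
          exact hxu2 hxb
    have heX : e ∉ XX {a2} {a3} ({x, c, u1, u2} : Finset V) := by
      rintro ((h | h) | h)
      · rw [Set.mem_singleton_iff] at h
        rw [h] at hxe
        exact hxe h2.1
      · rw [Set.mem_singleton_iff] at h
        rw [h] at hxe
        exact hxe h3.1
      · rw [Finset.mem_coe] at h
        simp only [Finset.mem_insert, Finset.mem_singleton] at h
        rcases h with h | h | h | h
        · exact hex h
        · exact hce.ne h.symm
        · rw [h] at hce
          exact hcu1 hce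
        · rw [h] at hce
          exact hcu2 hce
    have hbe : b ≠ e := by
      rintro rfl
      exact hxe hxb
    exact rm1_core hPE1 hPE2 hL.pg rfl hP hxc u1x.symm u2x.symm u1c.symm u2c.symm u12 hbX heX
      hxb hce hbu huu hcb hxe hb2 hb3 (hL.lk b hbR e heR hbe)
  -- b is linked to both; it is attached to only one of them
  obtain ⟨hu1R, u1x, u1c, hxu1, hcu1⟩ := hmI u1 hu1
  obtain ⟨hu2R, u2x, u2c, hxu2, hcu2⟩ := hmI u2 hu2
  have q1 := hII u1 hu1
  have q2 := hII u2 hu2
  have hmS : ∀ s ∈ ({x, c, u1, u2} : Finset V), G.Adj s a2 ∧ G.Adj s a3 := by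
    intro s hs
    simp only [Finset.mem_insert, Finset.mem_singleton] at hs
    rcases hs with rfl | rfl | rfl | rfl
    · exact ⟨h2.1, h3.1⟩
    · exact ⟨h2.2, h3.2⟩
    · exact q1
    · exact q2
  have hP : Pol G {a2} {a3} ({x, c, u1, u2} : Finset V) := by
    refine ⟨con_single _, con_single _, Set.disjoint_singleton.2 n23, ?_, ?_, ?_, ?_⟩
    · intro s hs e
      exact (hmS s hs).1.ne (Set.mem_singleton_iff.1 e)
    · intro s hs e
      exact (hmS s hs).2.ne (Set.mem_singleton_iff.1 e)
    · intro s hs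
      exact ⟨a2, rfl, (hmS s hs).1.symm⟩
    · intro s hs
      exact ⟨a3, rfl, (hmS s hs).2.symm⟩
  have hbX : b ∉ XX {a2} {a3} ({x, c, u1, u2} : Finset V) := by
    rintro ((h | h) | h)
    · rw [Set.mem_singleton_iff] at h
      rw [h] at hcb
      exact hcb h2.2
    · rw [Set.mem_singleton_iff] at h
      rw [h] at hcb
      exact hcb h3.2
    · rw [Finset.mem_coe] at h
      simp only [Finset.mem_insert, Finset.mem_singleton] at h
      rcases h with h | h | h | h
      · exact hxb.ne h.symm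
      · exact hbc h
      · rw [h] at hxb
        exact hxu1 hxb
      · rw [h] at hxb
        exact hxu2 hxb
  have lnk : ∀ u ∈ ({u1, u2} : Finset V), ∀ v ∈ ({u1, u2} : Finset V), u ≠ v →
      Lnk G (XX {a2} {a3} ({x, c, u1, u2} : Finset V)) b u ∨ (G.Adj b v ∧ G.Adj v u) := by
    intro u hu v hv huv
    have huI : u ∈ II G R x c := by
      simp only [Finset.mem_insert, Finset.mem_singleton] at hu
      rcases hu with rfl | rfl
      · exact hu1
      · exact hu2
    obtain ⟨huR, ux, uc, hxu, hcu⟩ := hmI u huI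
    have hbu : b ≠ u := by
      rintro rfl
      exact hxu hxb
    rcases hL.lk b hbR u huR hbu with h | ⟨w, -, hbw, hwu⟩
    · exact Or.inl (lnk_adj hbX h)
    · by_cases hw : w ∈ XX {a2} {a3} ({x, c, u1, u2} : Finset V)
      · right
        rcases hw with (hw | hw) | hw
        · rw [Set.mem_singleton_iff] at hw
          rw [hw] at hbw
          exact absurd hbw hb2
        · rw [Set.mem_singleton_iff] at hw
          rw [hw] at hbw
          exact absurd hbw hb3
        · rw [Finset.mem_coe] at hw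
          simp only [Finset.mem_insert, Finset.mem_singleton] at hw
          rcases hw with hw | hw | hw
          · rw [hw] at hwu
            exact absurd hwu hxu
          · rw [hw] at hwu
            exact absurd hwu hcu
          · have hwv : w = v := by
              simp only [Finset.mem_insert, Finset.mem_singleton] at hu hv
              have hne := hwu.ne
              rcases hw with rfl | rfl <;> rcases hu with rfl | rfl <;> rcases hv with rfl | rfl <;>
                first | rfl | exact absurd rfl hne | exact absurd rfl huv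
            rw [hwv] at hbw hwu
            exact ⟨hbw, hwu⟩
      · exact Or.inl (lnk_cons hbX hbw (lnk_adj hw hwu))
  have lbx : Lnk G (XX {a2} {a3} ({x, c, u1, u2} : Finset V)) b x := lnk_adj hbX hxb.symm
  rcases lnk u1 (by simp) u2 (by simp) u12 with k1 | ⟨k1, k1'⟩
  · rcases lnk u2 (by simp) u1 (by simp) u12.symm with k2 | ⟨k2, k2'⟩
    · exact hPE1 V G _ _ _ hL.pg hP b x u1 u2 (by simp) (by simp) (by simp) u1x.symm u2x.symm
        u12 lbx k1 k2
    · exact step u1 hu1 u2 hu2 u12 k2 k2'
  · exact step u2 hu2 u1 hu1 u12.symm k1 k1'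

end Pool.Agent.H62.RCQ.RM1
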